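import Mathlib

/-!
# Symbols modulo 2 and curves `y² = x(x-β)(x-γ)`: definitions
-/

set_option autoImplicit false

namespace Pool.Agent.helper83.UT

/-- A symbol modulo 2 on the field `K`: `S : (Kˣ)³ → M` is additive in each variable, `2 S = 0`, and
`S a b c = 0` if `a + b = 1` or `b + c = 1`. The universal one is `(a, b, c) ↦ {a, b, c}` with values in the
Milnor K-group `K_3^M(K)/2`; another one is the cup product `(a) ∪ (b) ∪ (c)` in `H³(K, ℤ/2)`. -/
structure Sy3 {K : Type*} [Field K] {M : Type*} [AddCommGroup M] (S : Kˣ → Kˣ → Kˣ → M) : Prop where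
  m1 : ∀ a a' b c, S (a * a') b c = S a b c + S a' b c
  m2 : ∀ a b b' c, S a (b * b') c = S a b c + S a b' c
  m3 : ∀ a b c c', S a b (c * c') = S a b c + S a b c'
  two : ∀ a b c, S a b c + S a b c = 0
  st12 : ∀ a b c : Kˣ, (a : K) + b = 1 → S a b c = 0
  st23 : ∀ a b c : Kˣ, (b : K) + c = 1 → S a b c = 0

/-- A point `(x, y)` over `K` of the curve `y² = x(x-β)(x-γ)` with `y ≠ 0`. -/
structure Pt (K : Type*) [Field K] (β γ : K) where
  x : K
  y : K
  on : y ^ 2 = x * (x - β) * (x - γ)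
  ne : y ≠ 0

section

variable {K : Type*} [Field K] {β γ : K} (P : Pt K β γ)

lemma Pt.prod_ne : P.x * (P.x - β) * (P.x - γ) ≠ 0 := by
  rw [← P.on]
  exact pow_ne_zero 2 P.ne

/-- The value of the function `x`. -/
def Pt.a : Kˣ := Units.mk0 P.x (left_ne_zero_of_mul (left_ne_zero_of_mul P.prod_ne))

/-- The value of the function `x - β`. -/
def Pt.c : Kˣ := Units.mk0 (P.x - β) (right_ne_zero_of_mul (left_ne_zero_of_mul P.prod_ne))

/-- The value of the function `x - γ`. -/
def Pt.b : Kˣ := Units.mk0 (P.x - γ) (right_ne_zero_of_mul P.prod_ne)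

/-- The values of the functions `x`, `x - β`, `x - γ`. -/
def Pt.f {K : Type*} [Field K] {β γ : K} (P : Pt K β γ) : Fin 3 → Kˣ := ![P.a, P.c, P.b]

end

/-- The classes modulo squares of `x`, `x - β`, `x - γ` at `P'` are those of `x - β`, `x - γ`, `x` at `P`. -/
structure Shift {K : Type*} [Field K] {β γ : K} (P P' : Pt K β γ) : Prop where
  ac : IsSquare (P'.a * P.c)
  cb : IsSquare (P'.c * P.b)
  ba : IsSquare (P'.b * P.a)

/-- `P` has a shift which has a shift. -/
def Orb {K : Type*} [Field K] {β γ : K} (P : Pt K β γ) : Prop :=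
  ∃ P' P'' : Pt K β γ, Shift P P' ∧ Shift P' P''

/-- The values of the functions `x`, `x - β`, `x - γ` at `P`. -/
def vals {K : Type*} [Field K] {β γ : K} (P : Pt K β γ) : Set Kˣ := Set.range P.f

/-- The subgroup of `Kˣ` generated by the squares and the elements of `s`. -/
def gen {K : Type*} [Field K] (s : Set Kˣ) : Subgroup Kˣ := Subgroup.closure ({u | IsSquare u} ∪ s)

/-- `S` vanishes on the group generated by the squares and the elements of `s`. -/
def Vanish {K : Type*} [Field K] {M : Type*} [AddCommGroup M] (S : Kˣ → Kˣ → Kˣ → M) (s : Set Kˣ) : Prop :=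
  ∀ u ∈ gen s, ∀ v ∈ gen s, ∀ w ∈ gen s, S u v w = 0

/-- The relation `S(x(P)-β₁, x(Q), x(R)) + S(x(P), x(Q)-β₂, x(R)) + S(x(P), x(Q), x(R)-β₃) = 0`. -/
def Relation {K : Type*} [Field K] {M : Type*} [AddCommGroup M] (S : Kˣ → Kˣ → Kˣ → M) {β₁ γ₁ β₂ γ₂ β₃ γ₃ : K}
    (P : Pt K β₁ γ₁) (Q : Pt K β₂ γ₂) (R : Pt K β₃ γ₃) : Prop :=
  S P.c Q.a R.a + S P.a Q.c R.a + S P.a Q.a R.c = 0

/-- The conditions on the parameters. -/
structure Par {K : Type*} [Field K] (p q r s : K) : Prop where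
  sum : p + q + r + s = 0
  ne : p * q * r * s ≠ 0
  ne' : (p + q) * (p + r) * (p + s) ≠ 0
  one : IsSquare (-1 : K)
  sp : IsSquare p
  sq : IsSquare q
  sr : IsSquare r
  ss : IsSquare s
  sd : IsSquare ((p + q) * (p + r) * (p + s))

end Pool.Agent.helper83.UT
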