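import Pool.Agent.helper83.UT.Van

set_option autoImplicit false

namespace Pool.Agent.helper83.UT

section

variable {K : Type*} [Field K] {M : Type*} [AddCommGroup M]

/-- Products of three elements of a group generated by squares and a set. -/
lemma Sy3.gen3 {S : Kˣ → Kˣ → Kˣ → M} (h : Sy3 S) (s : Set Kˣ)
    (k0 : ∀ u ∈ s, ∀ v ∈ s, ∀ w ∈ s, S u v w = 0)
    (u v w : Kˣ) (hu : u ∈ gen s) (hv : v ∈ gen s) (hw : w ∈ gen s) : S u v w = 0 := by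
  have k1 : ∀ u ∈ gen s, ∀ v ∈ s, ∀ w ∈ s, S u v w = 0 := by
    intro u hu v hv w hw
    refine Subgroup.closure_induction (p := fun u _ => S u v w = 0) ?_ ?_ ?_ ?_ hu
    · rintro x (⟨r, rfl⟩ | hx)
      · exact (h.p12 _).sq1 _ _
      · exact k0 x hx v hv w hw
    · exact (h.p12 _).one1 _
    · intro x y _ _ hx hy
      rw [h.m1, hx, hy, add_zero]
    · intro x _ hx
      rw [(h.p12 _).inv1, hx]
  have k2 : ∀ u ∈ gen s, ∀ v ∈ gen s, ∀ w ∈ s, S u v w = 0 := by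
    intro u hu v hv w hw
    refine Subgroup.closure_induction (p := fun v _ => S u v w = 0) ?_ ?_ ?_ ?_ hv
    · rintro x (⟨r, rfl⟩ | hx)
      · exact (h.p12 _).sq2 _ _
      · exact k1 u hu x hx w hw
    · exact (h.p12 _).one2 _
    · intro x y _ _ hx hy
      rw [h.m2, hx, hy, add_zero]
    · intro x _ hx
      rw [(h.p12 _).inv2, hx]
  refine Subgroup.closure_induction (p := fun w _ => S u v w = 0) ?_ ?_ ?_ ?_ hw
  · rintro x (⟨r, rfl⟩ | hx)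
    · exact (h.p23 _).sq2 _ _
    · exact k2 u hu v hv x hx
  · exact (h.p23 _).one2 _
  · intro x y _ _ hx hy
    rw [h.m3, hx, hy, add_zero]
  · intro x _ hx
    rw [(h.p23 _).inv2, hx]

/-- All the symbols of the three curves vanish. -/
lemma Sy3.van {S : Kˣ → Kˣ → Kˣ → M} (h : Sy3 S) {β1 γ1 β2 γ2 β3 γ3 : K}
    (tau : ∀ (P : Pt K β1 γ1) (Q : Pt K β2 γ2) (R : Pt K β3 γ3),
      S P.c Q.a R.a + S P.a Q.c R.a + S P.a Q.a R.c = 0)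
    {P P' P'' : Pt K β1 γ1} {Q Q' Q'' : Pt K β2 γ2} {R R' R'' : Pt K β3 γ3} (hP : Shift P P') (hP' : Shift P' P'')
    (hQ : Shift Q Q') (hQ' : Shift Q' Q'') (hR : Shift R R') (hR' : Shift R' R'') (e f g : Fin 3) :
    S (P.f e) (Q.f f) (R.f g) = 0 := by
  obtain ⟨P1, P2, p1, p2⟩ := orbit hP hP' e
  obtain ⟨Q1, Q2, q1, q2⟩ := orbit hQ hQ' f
  obtain ⟨R1, R2, r1, r2⟩ := orbit hR hR' g
  rw [(h.p12 _).cong1 p2, (h.p12 _).cong2 q2, (h.p23 _).cong2 r2]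
  exact h.aaa tau P1 P2 Q1 Q2 R1 R2 p1 q1 r1

/-- All the products of three functions vanish. -/
lemma Sy3.all {S : Kˣ → Kˣ → Kˣ → M} (h : Sy3 S) (hi : IsSquare (-1 : Kˣ)) {β1 γ1 β2 γ2 β3 γ3 : K}
    (h1 : IsSquare β1) (h2 : IsSquare β2) (h3 : IsSquare β3) (h10 : β1 ≠ 0) (h20 : β2 ≠ 0) (h30 : β3 ≠ 0)
    (tau : ∀ (P : Pt K β1 γ1) (Q : Pt K β2 γ2) (R : Pt K β3 γ3),
      S P.c Q.a R.a + S P.a Q.c R.a + S P.a Q.a R.c = 0)
    {P P' P'' : Pt K β1 γ1} {Q Q' Q'' : Pt K β2 γ2} {R R' R'' : Pt K β3 γ3} (hP : Shift P P') (hP' : Shift P' P'')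
    (hQ : Shift Q Q') (hQ' : Shift Q' Q'') (hR : Shift R R') (hR' : Shift R' R'') (u v w : Kˣ)
    (hu : u ∈ gen (Set.range P.f ∪ Set.range Q.f ∪ Set.range R.f))
    (hv : v ∈ gen (Set.range P.f ∪ Set.range Q.f ∪ Set.range R.f))
    (hw : w ∈ gen (Set.range P.f ∪ Set.range Q.f ∪ Set.range R.f)) : S u v w = 0 := by
  have van := h.van tau hP hP' hQ hQ' hR hR'
  refine h.gen3 _ ?_ u v w hu hv hw
  have sP12 : ∀ e f z, S (P.f e) (P.f f) z = 0 := fun e f z => (h.p12 z).same hi h1 h10 P e f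
  have sP23 : ∀ e f z, S z (P.f e) (P.f f) = 0 := fun e f z => (h.p23 z).same hi h1 h10 P e f
  have sP13 : ∀ e f z, S (P.f e) z (P.f f) = 0 := fun e f z => (h.p13 hi z).same hi h1 h10 P e f
  have sQ12 : ∀ e f z, S (Q.f e) (Q.f f) z = 0 := fun e f z => (h.p12 z).same hi h2 h20 Q e f
  have sQ23 : ∀ e f z, S z (Q.f e) (Q.f f) = 0 := fun e f z => (h.p23 z).same hi h2 h20 Q e f
  have sQ13 : ∀ e f z, S (Q.f e) z (Q.f f) = 0 := fun e f z => (h.p13 hi z).same hi h2 h20 Q e f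
  have sR12 : ∀ e f z, S (R.f e) (R.f f) z = 0 := fun e f z => (h.p12 z).same hi h3 h30 R e f
  have sR23 : ∀ e f z, S z (R.f e) (R.f f) = 0 := fun e f z => (h.p23 z).same hi h3 h30 R e f
  have sR13 : ∀ e f z, S (R.f e) z (R.f f) = 0 := fun e f z => (h.p13 hi z).same hi h3 h30 R e f
  rintro _ ((⟨e, rfl⟩ | ⟨e, rfl⟩) | ⟨e, rfl⟩) _ ((⟨f, rfl⟩ | ⟨f, rfl⟩) | ⟨f, rfl⟩) _
    ((⟨g, rfl⟩ | ⟨g, rfl⟩) | ⟨g, rfl⟩)
  · exact sP12 _ _ _
  · exact sP12 _ _ _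
  · exact sP12 _ _ _
  · exact sP13 _ _ _
  · exact sQ23 _ _ _
  · exact van _ _ _
  · exact sP13 _ _ _
  · rw [h.s23 hi]; exact van _ _ _
  · exact sR23 _ _ _
  · exact sP23 _ _ _
  · exact sQ13 _ _ _
  · rw [h.s12 hi]; exact van _ _ _
  · exact sQ12 _ _ _
  · exact sQ12 _ _ _
  · exact sQ12 _ _ _
  · rw [h.s23 hi, h.s12 hi]; exact van _ _ _
  · exact sQ13 _ _ _
  · exact sR23 _ _ _
  · exact sP23 _ _ _
  · rw [h.s12 hi, h.s23 hi]; exact van _ _ _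
  · exact sR13 _ _ _
  · rw [h.s12 hi, h.s23 hi, h.s12 hi]; exact van _ _ _
  · exact sQ23 _ _ _
  · exact sR13 _ _ _
  · exact sR12 _ _ _
  · exact sR12 _ _ _
  · exact sR12 _ _ _

/-- Products of the values of the functions at the points of one curve: the diagonal relations are used. -/
lemma Sy3.one {S : Kˣ → Kˣ → Kˣ → M} (h : Sy3 S) (hi : IsSquare (-1 : Kˣ)) {β γ : K}
    (tau : ∀ (P Q R : Pt K β γ), S P.c Q.a R.a + S P.a Q.c R.a + S P.a Q.a R.c = 0)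
    (sh : ∀ P : Pt K β γ, ∃ P', Shift P P') (u v w : Kˣ)
    (hu : u ∈ gen {z : Kˣ | ∃ P : Pt K β γ, ∃ e, z = P.f e})
    (hv : v ∈ gen {z : Kˣ | ∃ P : Pt K β γ, ∃ e, z = P.f e})
    (hw : w ∈ gen {z : Kˣ | ∃ P : Pt K β γ, ∃ e, z = P.f e}) : S u v w = 0 := by
  refine h.gen3 _ ?_ u v w hu hv hw
  rintro _ ⟨P, e, rfl⟩ _ ⟨Q, f, rfl⟩ _ ⟨R, g, rfl⟩
  obtain ⟨P', p1⟩ := sh P
  obtain ⟨P'', p2⟩ := sh P'
  obtain ⟨Q', q1⟩ := sh Q
  obtain ⟨Q'', q2⟩ := sh Q'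
  obtain ⟨R', r1⟩ := sh R
  obtain ⟨R'', r2⟩ := sh R'
  exact h.van tau p1 p2 q1 q2 r1 r2 e f g

end

/-- The relation for three points of `y² = x(x-1)(x+3)`. -/
lemma Sy3.tau3 {K : Type*} [Field K] {M : Type*} [AddCommGroup M] {S : Kˣ → Kˣ → Kˣ → M} (h : Sy3 S)
    (hi : IsSquare (-1 : Kˣ)) (h1 : IsSquare (-1 : K)) (h2 : IsSquare (2 : K)) (h3 : IsSquare (3 : K))
    (h20 : (2 : K) ≠ 0) (h30 : (3 : K) ≠ 0) (P Q R : Pt K 1 (-3)) :
    S P.c Q.a R.a + S P.a Q.c R.a + S P.a Q.a R.c = 0 := by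
  let P1 : Pt K ((1 : K) * 1) (-3 * 1) := ⟨P.x, P.y, by rw [P.on]; ring, P.ne⟩
  let Q1 : Pt K ((1 : K) * 1) (1 * (-3)) := ⟨Q.x, Q.y, by rw [Q.on]; ring, Q.ne⟩
  let R1 : Pt K ((1 : K) * 1) (1 * (-3)) := ⟨R.x, R.y, by rw [R.on]; ring, R.ne⟩
  have hm3 : IsSquare (-3 : K) := by
    have := h1.mul h3
    rwa [show (-1 : K) * 3 = -3 by ring] at this
  have he : IsSquare ((1 : K) * 1 * (-3) + 1 * 1 * 1 + 1 * (-3) * 1 + 1 * (-3) * 1) := by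
    have := (h1.mul h2).mul (⟨2, rfl⟩ : IsSquare ((2 : K) * 2))
    rwa [show (-1 : K) * 2 * (2 * 2) = 1 * 1 * (-3) + 1 * 1 * 1 + 1 * (-3) * 1 + 1 * (-3) * 1 by ring] at this
  have he0 : ((1 : K) * 1 * (-3) + 1 * 1 * 1 + 1 * (-3) * 1 + 1 * (-3) * 1) ≠ 0 := by
    rw [show (1 : K) * 1 * (-3) + 1 * 1 * 1 + 1 * (-3) * 1 + 1 * (-3) * 1 = -(2 * 2 * 2) by ring]
    exact neg_ne_zero.2 (mul_ne_zero (mul_ne_zero h20 h20) h20)
  have t := h.tau hi (1 : K) 1 (-3) 1 (by ring) ⟨1, by ring⟩ ⟨1, by ring⟩ hm3 ⟨1, by ring⟩ he one_ne_zero one_ne_zero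
    (neg_ne_zero.2 h30) one_ne_zero he0 P1 Q1 R1
  have a1 : P1.a = P.a := rfl
  have a2 : Q1.a = Q.a := rfl
  have a3 : R1.a = R.a := rfl
  have c1 : P1.c = P.c := Units.ext (by simp [Pt.c, P1])
  have c2 : Q1.c = Q.c := Units.ext (by simp [Pt.c, Q1])
  have c3 : R1.c = R.c := Units.ext (by simp [Pt.c, R1])
  rw [a1, a2, a3, c1, c2, c3] at t
  exact t

/-- The shift in characteristic 13. -/
def sh13 {K : Type*} [Field K] [CharP K 13] (P : Pt K 1 (-3)) : Pt K 1 (-3) where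
  x := 3 * P.x - 3
  y := P.y
  on := by
    have h13 : (13 : K) = 0 := by exact_mod_cast CharP.cast_eq_zero K 13
    rw [P.on]
    linear_combination (P.x * (P.x - 1) * (3 - 2 * P.x)) * h13
  ne := P.ne

lemma sh13_shift {K : Type*} [Field K] [CharP K 13] (P : Pt K 1 (-3)) : Shift P (sh13 P) := by
  have h13 : (13 : K) = 0 := by exact_mod_cast CharP.cast_eq_zero K 13
  have h4 : (4 : K) ≠ 0 := by
    intro h4
    have : (1 : K) = 0 := by linear_combination h13 - 3 * h4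
    exact one_ne_zero this
  refine ⟨⟨Units.mk0 4 h4 * P.c, ?_⟩, ⟨Units.mk0 4 h4 * P.b, ?_⟩, ⟨Units.mk0 4 h4 * P.a, ?_⟩⟩
  · apply Units.ext
    simp only [sh13, Pt.a, Pt.c, Units.val_mul, Units.val_mk0]
    linear_combination (-(P.x - 1) ^ 2) * h13
  · apply Units.ext
    simp only [sh13, Pt.b, Pt.c, Units.val_mul, Units.val_mk0]
    linear_combination (-(P.x + 3) ^ 2 - (P.x + 3)) * h13
  · apply Units.ext
    simp only [sh13, Pt.a, Pt.b, Units.val_mul, Units.val_mk0]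
    linear_combination (-P.x ^ 2) * h13

end Pool.Agent.helper83.UT
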