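import Pool.Agent.helper83.UT.Defs

/-!
# Three-fold symbols modulo 2 and products of three copies of `y² = x(x-1)(x+3)`
-/

set_option autoImplicit false

namespace Pool.Agent.helper83.UT

/-- A bilinear symbol with values in a group of exponent 2 with the Steinberg relation; `-1` is a square. -/
structure Sy2 {K : Type*} [Field K] {M : Type*} [AddCommGroup M] (P : Kˣ → Kˣ → M) : Prop where
  m1 : ∀ a a' b, P (a * a') b = P a b + P a' b
  m2 : ∀ a b b', P a (b * b') = P a b + P a b'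
  two : ∀ a b, P a b + P a b = 0
  st : ∀ a b : Kˣ, (a : K) + b = 1 → P a b = 0

section Two

variable {K : Type*} [Field K] {M : Type*} [AddCommGroup M] {P : Kˣ → Kˣ → M}

lemma Sy2.eq_of (h : Sy2 P) {a b c d : Kˣ} (e : P a b + P c d = 0) : P a b = P c d := by
  have := h.two c d
  have h2 : P a b + P c d = P c d + P c d := by rw [e, this]
  exact add_right_cancel h2

lemma Sy2.sq1 (h : Sy2 P) (a b : Kˣ) : P (a * a) b = 0 := by rw [h.m1, h.two]

lemma Sy2.sq2 (h : Sy2 P) (a b : Kˣ) : P a (b * b) = 0 := by rw [h.m2, h.two]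

lemma Sy2.one1 (h : Sy2 P) (b : Kˣ) : P 1 b = 0 := by
  have := h.sq1 1 b
  rwa [one_mul] at this

lemma Sy2.one2 (h : Sy2 P) (a : Kˣ) : P a 1 = 0 := by
  have := h.sq2 a 1
  rwa [one_mul] at this

lemma Sy2.inv1 (h : Sy2 P) (a b : Kˣ) : P a⁻¹ b = P a b := by
  refine h.eq_of ?_
  rw [← h.m1, inv_mul_cancel, h.one1]

lemma Sy2.inv2 (h : Sy2 P) (a b : Kˣ) : P a b⁻¹ = P a b := by
  refine h.eq_of ?_
  rw [← h.m2, inv_mul_cancel, h.one2]

lemma Sy2.cong1 (h : Sy2 P) {a a' : Kˣ} (e : IsSquare (a * a')) (b : Kˣ) : P a b = P a' b := by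
  refine h.eq_of ?_
  obtain ⟨r, hr⟩ := e
  rw [← h.m1, hr, h.sq1]

lemma Sy2.cong2 (h : Sy2 P) {b b' : Kˣ} (e : IsSquare (b * b')) (a : Kˣ) : P a b = P a b' := by
  refine h.eq_of ?_
  obtain ⟨r, hr⟩ := e
  rw [← h.m2, hr, h.sq2]

lemma Sy2.neg1 (h : Sy2 P) (hi : IsSquare (-1 : Kˣ)) (a b : Kˣ) : P (-a) b = P a b := by
  refine h.cong1 ?_ b
  obtain ⟨i, hi⟩ := hi
  exact ⟨i * a, by rw [mul_mul_mul_comm, ← hi]; simp⟩

lemma Sy2.neg2 (h : Sy2 P) (hi : IsSquare (-1 : Kˣ)) (a b : Kˣ) : P a (-b) = P a b := by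
  refine h.cong2 ?_ a
  obtain ⟨i, hi⟩ := hi
  exact ⟨i * b, by rw [mul_mul_mul_comm, ← hi]; simp⟩

lemma Sy2.self (h : Sy2 P) (hi : IsSquare (-1 : Kˣ)) (a : Kˣ) : P a a = 0 := by
  by_cases h1 : a = 1
  · rw [h1, h.one1]
  · have hne : (1 : K) - a ≠ 0 := fun hx => h1 (Units.ext (sub_eq_zero.1 hx).symm)
    have hne2 : (1 : K) - (a : K)⁻¹ ≠ 0 := by
      intro hx
      apply h1
      apply Units.ext
      have : (a : K)⁻¹ = 1 := (sub_eq_zero.1 hx).symm
      rw [inv_eq_one] at this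
      rw [this]; rfl
    have e1 : P a (Units.mk0 _ hne) = 0 := h.st _ _ (by simp)
    have e2 : P a⁻¹ (Units.mk0 _ hne2) = 0 := h.st _ _ (by simp)
    rw [h.inv1] at e2
    have e3 : Units.mk0 _ hne = (-a) * Units.mk0 _ hne2 := by
      apply Units.ext
      simp only [Units.val_mk0, Units.val_mul, Units.val_neg]
      field_simp
      ring
    rw [e3, h.m2, e2, add_zero, h.neg2 hi] at e1
    exact e1

lemma Sy2.symm (h : Sy2 P) (hi : IsSquare (-1 : Kˣ)) (a b : Kˣ) : P a b = P b a := by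
  refine h.eq_of ?_
  have := h.self hi (a * b)
  rw [h.m1, h.m2, h.m2, h.self hi, h.self hi] at this
  simpa using this

/-- `{a, p² - a q²} = 0`. -/
lemma Sy2.norm (h : Sy2 P) (hi : IsSquare (-1 : Kˣ)) (a U : Kˣ) (p q : K) (hU : (U : K) = p ^ 2 - a * q ^ 2) :
    P a U = 0 := by
  by_cases hq : q = 0
  · have hp : p ≠ 0 := by
      rintro rfl
      apply U.ne_zero
      rw [hU, hq]; simp
    have : U = Units.mk0 p hp * Units.mk0 p hp := by
      apply Units.ext
      rw [hU, hq]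
      simp [sq]
    rw [this, h.sq2]
  · by_cases hp : p = 0
    · have : U = (-a) * (Units.mk0 q hq * Units.mk0 q hq) := by
        apply Units.ext
        rw [hU, hp]
        simp [sq]
      rw [this, h.m2, h.sq2, add_zero, h.neg2 hi, h.self hi]
    · -- a (q/p)² + U/p² = 1
      set p' := Units.mk0 p hp
      set q' := Units.mk0 q hq
      have e : P (a * (q' * p'⁻¹ * (q' * p'⁻¹))) (U * (p'⁻¹ * p'⁻¹)) = 0 := by
        apply h.st
        simp only [Units.val_mul, Units.val_inv_eq_inv_val, hU]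
        simp only [p', q', Units.val_mk0]
        field_simp
        ring
      rw [h.m1, h.sq1, add_zero, h.m2, h.sq2, add_zero] at e
      exact e

end Two

section Three

variable {K : Type*} [Field K] {M : Type*} [AddCommGroup M] {S : Kˣ → Kˣ → Kˣ → M}

lemma Sy3.p12 (h : Sy3 S) (c : Kˣ) : Sy2 (fun a b => S a b c) :=
  ⟨fun _ _ _ => h.m1 _ _ _ _, fun _ _ _ => h.m2 _ _ _ _, fun _ _ => h.two _ _ _, fun _ _ e => h.st12 _ _ _ e⟩

lemma Sy3.p23 (h : Sy3 S) (a : Kˣ) : Sy2 (fun b c => S a b c) :=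
  ⟨fun _ _ _ => h.m2 _ _ _ _, fun _ _ _ => h.m3 _ _ _ _, fun _ _ => h.two _ _ _, fun _ _ e => h.st23 _ _ _ e⟩

lemma Sy3.s12 (h : Sy3 S) (hi : IsSquare (-1 : Kˣ)) (a b c : Kˣ) : S a b c = S b a c := (h.p12 c).symm hi a b

lemma Sy3.s23 (h : Sy3 S) (hi : IsSquare (-1 : Kˣ)) (a b c : Kˣ) : S a b c = S a c b := (h.p23 a).symm hi b c

lemma Sy3.p13 (h : Sy3 S) (hi : IsSquare (-1 : Kˣ)) (b : Kˣ) : Sy2 (fun a c => S a b c) := by
  have : (fun a c => S a b c) = fun a c => S b a c := by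
    funext a c
    exact h.s12 hi a b c
  rw [this]
  exact h.p23 b

/-- A value of the norm form of the quaternion algebra `(a, b)`. -/
lemma Sy3.quat (h : Sy3 S) (hi : IsSquare (-1 : Kˣ)) (a b N : Kˣ) (p q r t : K)
    (hN : (N : K) = p ^ 2 - a * q ^ 2 - b * r ^ 2 + a * b * t ^ 2) : S a b N = 0 := by
  by_cases hU : p ^ 2 - (a : K) * q ^ 2 = 0
  · have hW : r ^ 2 - (a : K) * t ^ 2 ≠ 0 := by
      intro hW
      apply N.ne_zero
      rw [hN]
      linear_combination hU - (b : K) * hW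
    have e : N = (-b) * Units.mk0 _ hW := by
      apply Units.ext
      rw [hN]
      simp only [Units.val_mul, Units.val_neg, Units.val_mk0]
      linear_combination hU
    rw [e, h.m3, (h.p23 a).neg2 hi, (h.p23 a).self hi, zero_add]
    exact (h.p13 hi b).norm hi a _ r t rfl
  · have e1 : S a b (Units.mk0 _ hU) = 0 := (h.p13 hi b).norm hi a _ p q rfl
    by_cases hW : r ^ 2 - (a : K) * t ^ 2 = 0
    · have e : N = Units.mk0 _ hU := by
        apply Units.ext
        rw [hN]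
        simp only [Units.val_mk0]
        linear_combination (-(b : K)) * hW
      rw [e, e1]
    · set U := Units.mk0 _ hU
      set W := Units.mk0 _ hW
      have e2 : S a (b * W * U⁻¹) (N * U⁻¹) = 0 := by
        apply h.st23
        simp only [Units.val_mul, Units.val_inv_eq_inv_val, hN]
        simp only [U, W, Units.val_mk0]
        field_simp
        ring
      have e3 : ∀ c, S a U c = 0 := fun c => (h.p12 c).norm hi a _ p q rfl
      have e4 : ∀ c, S a W c = 0 := fun c => (h.p12 c).norm hi a _ r t rfl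
      rw [h.m2, h.m2, (h.p12 _).inv2, e3, e4, h.m3, (h.p23 a).inv2, e1] at e2
      simpa using e2

/-- If the norm form of `(a, b)` is isotropic the symbol is zero. -/
lemma Sy3.split (h : Sy3 S) (hi : IsSquare (-1 : Kˣ)) (a b c : Kˣ) (p q r t : K) (hp : p ≠ 0)
    (hN : p ^ 2 - a * q ^ 2 - b * r ^ 2 + a * b * t ^ 2 = 0) : S a b c = 0 := by
  by_cases hW : r ^ 2 - (a : K) * t ^ 2 = 0
  · have hU : p ^ 2 - (a : K) * q ^ 2 = 0 := by linear_combination hN + (b : K) * hW
    have hq : q ≠ 0 := by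
      rintro rfl
      apply hp
      have : p ^ 2 = 0 := by linear_combination hU
      exact pow_eq_zero_iff (two_ne_zero) |>.1 this
    have e : a = Units.mk0 p hp * (Units.mk0 q hq)⁻¹ * (Units.mk0 p hp * (Units.mk0 q hq)⁻¹) := by
      apply Units.ext
      simp only [Units.val_mul, Units.val_inv_eq_inv_val, Units.val_mk0]
      field_simp
      linear_combination -hU
    rw [e]
    exact (h.p12 c).sq1 _ _
  · have hU : p ^ 2 - (a : K) * q ^ 2 ≠ 0 := by
      intro hU
      apply hW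
      have : (b : K) * (r ^ 2 - a * t ^ 2) = 0 := by linear_combination hU - hN
      exact (mul_eq_zero.1 this).resolve_left b.ne_zero
    have e : b = Units.mk0 _ hU * (Units.mk0 _ hW)⁻¹ := by
      apply Units.ext
      simp only [Units.val_mul, Units.val_inv_eq_inv_val, Units.val_mk0]
      field_simp
      linear_combination -hN
    rw [e, h.m2, (h.p12 c).inv2, (h.p12 c).norm hi a _ p q rfl, (h.p12 c).norm hi a _ r t rfl, add_zero]

end Three

end Pool.Agent.helper83.UT
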