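import Pool.Agent.helper83.UT.Sym

set_option autoImplicit false

namespace Pool.Agent.helper83.UT

section

variable {K : Type*} [Field K] {β γ : K} (P : Pt K β γ)

/-- `y`. -/
def Pt.w : Kˣ := Units.mk0 P.y P.ne

lemma Pt.acb : P.a * P.c * P.b = P.w * P.w := by
  apply Units.ext
  simp only [Pt.a, Pt.c, Pt.b, Pt.w, Units.val_mul, Units.val_mk0]
  rw [← P.on]
  ring

end

section

variable {K : Type*} [Field K] {M : Type*} [AddCommGroup M]

lemma Sy2.ac {P : Kˣ → Kˣ → M} (h : Sy2 P) (hi : IsSquare (-1 : Kˣ)) {β γ : K} (hβ : IsSquare β) (hβ0 : β ≠ 0)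
    (p : Pt K β γ) : P p.a p.c = 0 := by
  obtain ⟨t, ht⟩ := hβ
  have ht0 : t ≠ 0 := by
    rintro rfl
    apply hβ0
    rw [ht]; simp
  set T := Units.mk0 t ht0 with hT
  have e : P (p.a * (T⁻¹ * T⁻¹)) ((-p.c) * (T⁻¹ * T⁻¹)) = 0 := by
    apply h.st
    simp only [hT, Pt.a, Pt.c, Units.val_mul, Units.val_neg, Units.val_inv_eq_inv_val, Units.val_mk0]
    field_simp
    linear_combination ht
  rw [h.m1, h.sq1, add_zero, h.m2, h.sq2, add_zero, h.neg2 hi] at e
  exact e

lemma Sy2.b1 {P : Kˣ → Kˣ → M} (h : Sy2 P) {β γ : K} (p : Pt K β γ) (z : Kˣ) : P p.b z = P p.a z + P p.c z := by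
  rw [← h.m1]
  refine h.cong1 ⟨p.w, ?_⟩ z
  rw [← p.acb, mul_comm]

lemma Sy2.b2 {P : Kˣ → Kˣ → M} (h : Sy2 P) {β γ : K} (p : Pt K β γ) (z : Kˣ) : P z p.b = P z p.a + P z p.c := by
  rw [← h.m2]
  refine h.cong2 ⟨p.w, ?_⟩ z
  rw [← p.acb, mul_comm]

/-- The diagonal: `{x_1, x_2 - 1} = {x_1 - 1, x_2}`. -/
lemma Sy2.diag {P : Kˣ → Kˣ → M} (h : Sy2 P) (hi : IsSquare (-1 : Kˣ)) {β γ : K} (p q : Pt K β γ) :
    P p.a q.c = P p.c q.a := by
  by_cases hx : p.x = q.x
  · have e1 : q.c = p.c := Units.ext (by simp [Pt.c, hx])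
    have e2 : q.a = p.a := Units.ext (by simp [Pt.a, hx])
    rw [e1, e2]
    exact h.symm hi _ _
  · have hne : p.x - q.x ≠ 0 := sub_ne_zero.2 hx
    set d : Kˣ := Units.mk0 _ hne with hd
    have key : ∀ u v : Kˣ, (u : K) - v = d → P u v = P u d + P d v := by
      intro u v huv
      have e : P (u * d⁻¹) (-(v * d⁻¹)) = 0 := by
        apply h.st
        simp only [Units.val_mul, Units.val_neg, Units.val_inv_eq_inv_val]
        have hd0 : (d : K) ≠ 0 := d.ne_zero
        field_simp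
        linear_combination huv
      rw [h.neg2 hi, h.m1, h.m2, h.m2, h.inv1, h.inv2, h.inv1, h.inv2, h.self hi, add_zero] at e
      have e2 := h.two u d
      have e3 := h.two d v
      have : P u v = P u v + (P u d + P d v) + (P u d + P d v) := by
        have : (P u d + P d v) + (P u d + P d v) = 0 := by
          rw [add_add_add_comm, e2, e3, add_zero]
        rw [add_assoc, this, add_zero]
      rw [this, ← add_assoc (P u v), e, zero_add]
    have k1 := key p.a q.a (by simp [Pt.a, hd])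
    have k2 := key p.c q.c (by simp [Pt.c, hd])
    have k3 := key p.b q.b (by simp [Pt.b, hd])
    have s1 : P p.a d + P p.c d + P p.b d = 0 := by
      rw [← h.m1, ← h.m1, p.acb, h.sq1]
    have s2 : P d q.a + P d q.c + P d q.b = 0 := by
      rw [← h.m2, ← h.m2, q.acb, h.sq2]
    have s3 : P p.a q.a + P p.c q.c + P p.b q.b = 0 := by
      rw [k1, k2, k3]
      have : P p.a d + P d q.a + (P p.c d + P d q.c) + (P p.b d + P d q.b) =
          (P p.a d + P p.c d + P p.b d) + (P d q.a + P d q.c + P d q.b) := by abel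
      rw [this, s1, s2, add_zero]
    rw [h.b1, h.b2, h.b2] at s3
    refine h.eq_of ?_
    have t1 := h.two p.a q.a
    have t2 := h.two p.c q.c
    have : P p.a q.c + P p.c q.a = (P p.a q.a + P p.c q.c + (P p.a q.a + P p.a q.c + (P p.c q.a + P p.c q.c))) -
        (P p.a q.a + P p.a q.a) - (P p.c q.c + P p.c q.c) := by abel
    rw [this, s3, t1, t2]
    simp

/-- The relation. -/
lemma Sy3.tau {S : Kˣ → Kˣ → Kˣ → M} (h : Sy3 S) (hi : IsSquare (-1 : Kˣ)) (p q r s : K) (hsum : p + q + r + s = 0)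
    (hp : IsSquare p) (hq : IsSquare q) (hr : IsSquare r) (hs : IsSquare s)
    (he : IsSquare (p * q * r + p * q * s + p * r * s + q * r * s)) (hp0 : p ≠ 0) (hq0 : q ≠ 0) (hr0 : r ≠ 0)
    (hs0 : s ≠ 0) (he0 : p * q * r + p * q * s + p * r * s + q * r * s ≠ 0)
    (P : Pt K (p * q) (r * s)) (Q : Pt K (q * s) (p * r)) (R : Pt K (p * s) (q * r)) :
    S P.c Q.a R.a + S P.a Q.c R.a + S P.a Q.a R.c = 0 := by
  have hpq : IsSquare (p * q) := hp.mul hq
  have hqs : IsSquare (q * s) := hq.mul hs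
  have hps : IsSquare (p * s) := hp.mul hs
  obtain ⟨i, hi'⟩ := id hi
  have hi2 : (i : K) * i = -1 := by
    have := congrArg Units.val hi'
    simpa using this.symm
  obtain ⟨p0, hp1⟩ := hp
  obtain ⟨q0, hq1⟩ := hq
  obtain ⟨r0, hr1⟩ := hr
  obtain ⟨s0, hs1⟩ := hs
  obtain ⟨t, ht⟩ := he
  have hr00 : r0 ≠ 0 := by
    rintro rfl
    apply hr0
    rw [hr1]; simp
  have hp00 : p0 ≠ 0 := by
    rintro rfl
    apply hp0
    rw [hp1]; simp
  have hq00 : q0 ≠ 0 := by
    rintro rfl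
    apply hq0
    rw [hq1]; simp
  have hs00 : s0 ≠ 0 := by
    rintro rfl
    apply hs0
    rw [hs1]; simp
  have ht0 : t ≠ 0 := by
    rintro rfl
    apply he0
    rw [ht]; simp
  have pa := P.a.ne_zero
  have qa := Q.a.ne_zero
  have ra := R.a.ne_zero
  have pc := P.c.ne_zero
  have qc := Q.c.ne_zero
  have rc := R.c.ne_zero
  simp only [Pt.a, Pt.c, Units.val_mk0] at pa qa ra pc qc rc
  have main : S (P.a * Q.a) (P.a * R.a) (P.c * Q.c * R.c) = 0 := by
    by_cases hF : p * q * r * s + P.x * Q.x + P.x * R.x + Q.x * R.x = 0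
    · refine h.split hi _ _ _ (p0 * q0 * r0 * s0) i i (1 / P.x) (mul_ne_zero (mul_ne_zero (mul_ne_zero hp00 hq00) hr00) hs00) ?_
      simp only [Pt.a, Units.val_mul, Units.val_mk0]
      have e : P.x * Q.x * (P.x * R.x) * (1 / P.x) ^ 2 = Q.x * R.x := by
        field_simp
      have e2 : (i : K) ^ 2 = -1 := by rw [sq, hi2]
      rw [e, e2]
      have e3 : (p0 * q0 * r0 * s0) ^ 2 = p * q * r * s := by rw [hp1, hq1, hr1, hs1]; ring
      rw [e3]
      linear_combination hF
    · set F := Units.mk0 _ hF with hFd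
      have e1 : S (P.a * Q.a) (P.a * R.a) F = 0 := by
        refine h.quat hi _ _ _ (p0 * q0 * r0 * s0) i i (1 / P.x) ?_
        simp only [hFd, Pt.a, Units.val_mul, Units.val_mk0]
        have e : P.x * Q.x * (P.x * R.x) * (1 / P.x) ^ 2 = Q.x * R.x := by
          field_simp
        have e2 : (i : K) ^ 2 = -1 := by rw [sq, hi2]
        rw [e, e2]
        have e3 : (p0 * q0 * r0 * s0) ^ 2 = p * q * r * s := by rw [hp1, hq1, hr1, hs1]; ring
        rw [e3]
        ring
      set T := i * Units.mk0 t ht0 with hT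
      have e2 : S (P.a * Q.a) (P.a * R.a) (F * (P.c * Q.c * R.c)⁻¹ * (T * T)) = 0 := by
        refine h.quat hi _ _ _ r0 (i * q0 * (P.y * Q.y / (P.x * Q.x * (P.x - p * q) * (Q.x - q * s))))
          (i * p0 * (P.y * R.y / (P.x * R.x * (P.x - p * q) * (R.x - p * s))))
          (s0 * (Q.y * R.y / (Q.x * R.x * (Q.x - q * s) * (R.x - p * s))) / P.x) ?_
        simp only [hFd, hT, Pt.a, Pt.c, Units.val_mul, Units.val_inv_eq_inv_val, Units.val_mk0]
        have g1 : P.x * Q.x * (i * q0 * (P.y * Q.y / (P.x * Q.x * (P.x - p * q) * (Q.x - q * s)))) ^ 2 =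
            -(q * ((P.x - r * s) * (Q.x - p * r) / ((P.x - p * q) * (Q.x - q * s)))) := by
          have : P.x * Q.x * (i * q0 * (P.y * Q.y / (P.x * Q.x * (P.x - p * q) * (Q.x - q * s)))) ^ 2 =
              ((i : K) * i) * (q0 * q0) * (P.x * Q.x * ((P.y ^ 2 * Q.y ^ 2) / (P.x * Q.x * (P.x - p * q) * (Q.x - q * s)) ^ 2)) := by
            field_simp
          rw [this, hi2, ← hq1, P.on, Q.on]
          field_simp
        have g2 : P.x * R.x * (i * p0 * (P.y * R.y / (P.x * R.x * (P.x - p * q) * (R.x - p * s)))) ^ 2 =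
            -(p * ((P.x - r * s) * (R.x - q * r) / ((P.x - p * q) * (R.x - p * s)))) := by
          have : P.x * R.x * (i * p0 * (P.y * R.y / (P.x * R.x * (P.x - p * q) * (R.x - p * s)))) ^ 2 =
              ((i : K) * i) * (p0 * p0) * (P.x * R.x * ((P.y ^ 2 * R.y ^ 2) / (P.x * R.x * (P.x - p * q) * (R.x - p * s)) ^ 2)) := by
            field_simp
          rw [this, hi2, ← hp1, P.on, R.on]
          field_simp
        have g3 : P.x * Q.x * (P.x * R.x) * (s0 * (Q.y * R.y / (Q.x * R.x * (Q.x - q * s) * (R.x - p * s))) / P.x) ^ 2 =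
            s * ((Q.x - p * r) * (R.x - q * r) / ((Q.x - q * s) * (R.x - p * s))) := by
          have : P.x * Q.x * (P.x * R.x) * (s0 * (Q.y * R.y / (Q.x * R.x * (Q.x - q * s) * (R.x - p * s))) / P.x) ^ 2 =
              (s0 * s0) * (Q.x * R.x * ((Q.y ^ 2 * R.y ^ 2) / (Q.x * R.x * (Q.x - q * s) * (R.x - p * s)) ^ 2)) := by
            field_simp
          rw [this, ← hs1, Q.on, R.on]
          field_simp
        have g4 : r0 ^ 2 = r := by rw [hr1]; ring
        have g5 : (i : K) * t * (i * t) = -(p * q * r + p * q * s + p * r * s + q * r * s) := by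
          rw [ht]
          linear_combination (t * t) * hi2
        rw [g1, g2, g3, g4, g5]
        field_simp
        linear_combination (-(P.x * Q.x * R.x + p * q * r * s * (P.x + Q.x + R.x))) * hsum
      rw [h.m3, h.m3] at e2
      have z1 : ∀ x y z : Kˣ, S x y (z * z) = 0 := fun x y z => (h.p23 x).sq2 y z
      rw [z1, e1, (h.p23 _).inv2] at e2
      simpa using e2
  -- expansion
  have sA : ∀ z w : Kˣ, S z z w = 0 := fun z w => (h.p12 w).self hi z
  have hpq0 : p * q ≠ 0 := mul_ne_zero hp0 hq0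
  have hqs0 : q * s ≠ 0 := mul_ne_zero hq0 hs0
  have hps0 : p * s ≠ 0 := mul_ne_zero hp0 hs0
  have f1 : ∀ z, S P.a z P.c = 0 := fun z => (h.p13 hi z).ac hi hpq hpq0 P
  have f2 : ∀ z, S z Q.a Q.c = 0 := fun z => (h.p23 z).ac hi hqs hqs0 Q
  have f2' : ∀ z, S Q.a z Q.c = 0 := fun z => (h.p13 hi z).ac hi hqs hqs0 Q
  have f3 : ∀ z, S z R.a R.c = 0 := fun z => (h.p23 z).ac hi hps hps0 R
  have f1' : ∀ z, S z P.a P.c = 0 := fun z => (h.p23 z).ac hi hpq hpq0 P
  rw [h.m1, h.m2, h.m2, sA, zero_add] at main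
  simp only [h.m3, f1, f2, f2', f3, f1', add_zero, zero_add] at main
  have g1 : S P.a R.a Q.c = S P.a Q.c R.a := h.s23 hi _ _ _
  have g2 : S Q.a P.a R.c = S P.a Q.a R.c := h.s12 hi _ _ _
  have g3 : S Q.a R.a P.c = S P.c Q.a R.a := by
    rw [h.s23 hi, h.s12 hi]
  rw [g1, g2, g3] at main
  rw [← main]
  abel

end

end Pool.Agent.helper83.UT
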