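import Pool.Agent.helper83.UT.Tau

set_option autoImplicit false

namespace Pool.Agent.helper83.UT

section

variable {K : Type*} [Field K] {M : Type*} [AddCommGroup M]

lemma Sy2.same {P : Kˣ → Kˣ → M} (h : Sy2 P) (hi : IsSquare (-1 : Kˣ)) {β γ : K} (hβ : IsSquare β) (hβ0 : β ≠ 0)
    (p : Pt K β γ) (e f : Fin 3) : P (p.f e) (p.f f) = 0 := by
  have h1 : P p.a p.a = 0 := h.self hi _
  have h2 : P p.c p.c = 0 := h.self hi _
  have h3 : P p.a p.c = 0 := h.ac hi hβ hβ0 p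
  have h4 : P p.c p.a = 0 := by rw [h.symm hi, h3]
  have h5 : P p.a p.b = 0 := by rw [h.b2, h1, h3, add_zero]
  have h6 : P p.c p.b = 0 := by rw [h.b2, h2, h4, add_zero]
  have h7 : P p.b p.a = 0 := by rw [h.symm hi, h5]
  have h8 : P p.b p.c = 0 := by rw [h.symm hi, h6]
  have h9 : P p.b p.b = 0 := h.self hi _
  fin_cases e <;> fin_cases f
  · exact h1
  · exact h3
  · exact h5
  · exact h4
  · exact h2
  · exact h6
  · exact h7
  · exact h8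
  · exact h9

/-- The symbol of the functions `x` vanishes. -/
lemma Sy3.aaa {S : Kˣ → Kˣ → Kˣ → M} (h : Sy3 S) {β1 γ1 β2 γ2 β3 γ3 : K}
    (tau : ∀ (P : Pt K β1 γ1) (Q : Pt K β2 γ2) (R : Pt K β3 γ3),
      S P.c Q.a R.a + S P.a Q.c R.a + S P.a Q.a R.c = 0)
    (P P' : Pt K β1 γ1) (Q Q' : Pt K β2 γ2) (R R' : Pt K β3 γ3) (hP : Shift P P') (hQ : Shift Q Q')
    (hR : Shift R R') : S P.a Q.a R.a = 0 := by
  have t0 := tau P Q R
  have t1 := tau P' Q R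
  have t2 := tau P Q' R
  have t3 := tau P Q R'
  rw [(h.p12 _).cong1 hP.cb, (h.p12 _).cong1 hP.ac, (h.p12 _).cong1 hP.ac, (h.p12 _).b1] at t1
  rw [(h.p12 _).cong2 hQ.ac, (h.p12 _).cong2 hQ.cb, (h.p12 _).cong2 hQ.ac, (h.p12 _).b2] at t2
  rw [(h.p23 _).cong2 hR.ac, (h.p23 _).cong2 hR.ac, (h.p23 _).cong2 hR.cb, (h.p23 _).b2] at t3
  have d := h.two
  have e : S P.a Q.a R.a =
      (S P.c Q.a R.a + S P.a Q.c R.a + S P.a Q.a R.c) +
      (S P.a Q.a R.a + S P.c Q.a R.a + S P.c Q.c R.a + S P.c Q.a R.c) +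
      (S P.c Q.c R.a + (S P.a Q.a R.a + S P.a Q.c R.a) + S P.a Q.c R.c) +
      (S P.c Q.a R.c + S P.a Q.c R.c + (S P.a Q.a R.a + S P.a Q.a R.c)) -
      (S P.a Q.a R.a + S P.a Q.a R.a) - (S P.c Q.a R.a + S P.c Q.a R.a) - (S P.a Q.c R.a + S P.a Q.c R.a) -
      (S P.a Q.a R.c + S P.a Q.a R.c) - (S P.c Q.c R.a + S P.c Q.c R.a) - (S P.c Q.a R.c + S P.c Q.a R.c) -
      (S P.a Q.c R.c + S P.a Q.c R.c) := by abel
  rw [e, t0, t1, t2, t3, d, d, d, d, d, d, d]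
  simp

lemma Shift.back {β γ : K} {P P' P'' : Pt K β γ} (h1 : Shift P P') (h2 : Shift P' P'') : Shift P'' P := by
  have key : ∀ a b c : Kˣ, IsSquare (a * b) → IsSquare (b * c) → IsSquare (a * c) := by
    rintro a b c ⟨r, hr⟩ ⟨s, hs⟩
    refine ⟨r * s * b⁻¹, ?_⟩
    have e1 : r * s * b⁻¹ * (r * s * b⁻¹) = (r * r) * (s * s) * (b⁻¹ * b⁻¹) := by
      simp only [mul_assoc, mul_comm, mul_left_comm]
    rw [e1, ← hr, ← hs]
    have e2 : a * b * (b * c) * (b⁻¹ * b⁻¹) = a * c * ((b * b⁻¹) * (b * b⁻¹)) := by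
      simp only [mul_assoc, mul_comm, mul_left_comm]
    rw [e2]
    simp
  refine ⟨?_, ?_, ?_⟩
  · -- P.a * P''.c ; P''.c ~ P'.b ~ P.a
    have := key P''.c P'.b P.a h2.cb h1.ba
    rwa [mul_comm] at this
  · -- P.c * P''.b ; P''.b ~ P'.a ~ P.c
    have := key P''.b P'.a P.c h2.ba h1.ac
    rwa [mul_comm] at this
  · -- P.b * P''.a ; P''.a ~ P'.c ~ P.b
    have := key P''.a P'.c P.b h2.ac h1.cb
    rwa [mul_comm] at this

/-- The orbit of a point. -/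
lemma orbit {β γ : K} {P P' P'' : Pt K β γ} (h1 : Shift P P') (h2 : Shift P' P'') (e : Fin 3) :
    ∃ Q Q' : Pt K β γ, Shift Q Q' ∧ IsSquare (P.f e * Q.a) := by
  fin_cases e
  · exact ⟨P, P', h1, ⟨P.a, rfl⟩⟩
  · refine ⟨P', P'', h2, ?_⟩
    have := h1.ac
    rwa [mul_comm] at this
  · refine ⟨P'', P, h1.back h2, ?_⟩
    have := (h1.back h2).ba
    exact this

end

end Pool.Agent.helper83.UT
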